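import Pool.Agent.Y248.ND.Grp
import Pool.Agent.Y5.E.Stm

/-! Groups of frequencies for packets with blob tails (for helper5's S_ONB2). -/

open Set Filter Topology MeasureTheory

set_option autoImplicit false

namespace Pool.Agent.Y421.NE

open Pool.Agent.Y5 Pool.Agent.Y5.D Pool.Agent.Y5.E
open Pool.Agent.Y248.ND (vec_neg vec_sub vec_add abs_le_vec one_le_vec OT.zero bil_anti bil_eq_sum
  bil_bound H box mem_box card_box mem_box_of Em mem_Em basis inner_eq_pair K_pos K_mono K_lt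
  K_unb vec_neg_norm)

section

variable (K : ℕ → ℕ) (h : ℕ → Z3)

/-- the frequencies near `± h m` -/
def blob (m : ℕ) (k : Z3) : Prop :=
  ‖vec (k - h m)‖ ≤ (K m : ℝ) / 10 ∨ ‖vec (k + h m)‖ ≤ (K m : ℝ) / 10

open Classical in
/-- the group of a frequency -/
noncomputable def grp (k : Z3) : ℕ :=
  if ∃ m, blob K h m k then sInf {m | blob K h m k}
  else sInf {m | 8 * ‖vec k‖ ≤ K (m + 1)}

variable {K h}

theorem blob_neg (m : ℕ) (k : Z3) : blob K h m (-k) ↔ blob K h m k := by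
  unfold blob
  have h1 : ‖vec (-k - h m)‖ = ‖vec (k + h m)‖ := by
    rw [← vec_neg_norm (k + h m)]
    congr 2
    abel
  have h2 : ‖vec (-k + h m)‖ = ‖vec (k - h m)‖ := by
    rw [← vec_neg_norm (k - h m)]
    congr 2
    abel
  rw [h1, h2]
  tauto

theorem grp_neg (k : Z3) : grp K h (-k) = grp K h k := by
  have h2 : {m | blob K h m (-k)} = {m | blob K h m k} := by
    ext m; exact blob_neg m k
  unfold grp
  rw [h2, vec_neg_norm]
  by_cases hH : ∃ m, blob K h m k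
  · rw [if_pos hH, if_pos ((exists_congr (fun m => blob_neg m k)).2 hH)]
  · rw [if_neg hH, if_neg (fun h3 => hH ((exists_congr (fun m => blob_neg m k)).1 h3))]

theorem blob_norm (h0 : 1 ≤ K 0) (hK : ∀ n, 1000 * K n ≤ K (n + 1))
    (hn : ∀ n, 104 / 100 * (K (n + 1) : ℝ) ≤ ‖vec (h n)‖ ∧ ‖vec (h n)‖ ≤ 12 / 10 * K (n + 1))
    {m : ℕ} {k : Z3} (hb : blob K h m k) :
    103 / 100 * (K (m + 1) : ℝ) ≤ ‖vec k‖ ∧ ‖vec k‖ ≤ 13 / 10 * K (m + 1) := by
  have h1 := hn m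
  have h2 := K_lt h0 hK (Nat.lt_succ_self m)
  simp only [Nat.succ_eq_add_one] at h2
  have h3 : (0 : ℝ) ≤ K m := Nat.cast_nonneg _
  rcases hb with hb | hb
  · have e1 : ‖vec (h m)‖ ≤ ‖vec k‖ + ‖vec (k - h m)‖ := by
      rw [vec_sub]
      have := norm_sub_le (vec k) (vec k - vec (h m))
      rwa [sub_sub_cancel] at this
    have e2 : ‖vec k‖ ≤ ‖vec (h m)‖ + ‖vec (k - h m)‖ := by
      rw [vec_sub]
      have := norm_add_le (vec (h m)) (vec k - vec (h m))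
      rwa [add_sub_cancel] at this
    constructor <;> linarith
  · have e1 : ‖vec (h m)‖ ≤ ‖vec k‖ + ‖vec (k + h m)‖ := by
      rw [vec_add]
      have := norm_sub_le (vec k + vec (h m)) (vec k)
      rw [add_sub_cancel_left] at this
      linarith
    have e2 : ‖vec k‖ ≤ ‖vec (h m)‖ + ‖vec (k + h m)‖ := by
      rw [vec_add]
      have := norm_sub_le (vec k + vec (h m)) (vec (h m))
      rw [add_sub_cancel_right] at this
      linarith
    constructor <;> linarith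

/-- comparable norms imply equal levels -/
theorem lev_eq (h0 : 1 ≤ K 0) (hK : ∀ n, 1000 * K n ≤ K (n + 1)) {a b : ℕ} {x : ℝ}
    (ha : (K a : ℝ) ≤ x ∧ x ≤ 13 / 10 * K a) (hb : (K b : ℝ) ≤ x ∧ x ≤ 13 / 10 * K b) : a = b := by
  have hpos : ∀ n, (1 : ℝ) ≤ K n := fun n => by exact_mod_cast K_pos h0 hK n
  rcases lt_trichotomy a b with h1 | h1 | h1
  · exfalso
    have h2 := K_lt h0 hK h1
    have := hpos a
    linarith [ha.2, hb.1]
  · exact h1
  · exfalso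
    have h2 := K_lt h0 hK h1
    have := hpos b
    linarith [ha.1, hb.2]

theorem blob_lev (h0 : 1 ≤ K 0) (hK : ∀ n, 1000 * K n ≤ K (n + 1))
    (hn : ∀ n, 104 / 100 * (K (n + 1) : ℝ) ≤ ‖vec (h n)‖ ∧ ‖vec (h n)‖ ≤ 12 / 10 * K (n + 1))
    {m : ℕ} {k : Z3} (hb : blob K h m k) :
    (K (m + 1) : ℝ) ≤ ‖vec k‖ ∧ ‖vec k‖ ≤ 13 / 10 * K (m + 1) := by
  have h1 := blob_norm h0 hK hn hb
  have h2 : (0 : ℝ) ≤ K (m + 1) := Nat.cast_nonneg _
  exact ⟨by linarith, h1.2⟩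

theorem blob_unique (h0 : 1 ≤ K 0) (hK : ∀ n, 1000 * K n ≤ K (n + 1))
    (hn : ∀ n, 104 / 100 * (K (n + 1) : ℝ) ≤ ‖vec (h n)‖ ∧ ‖vec (h n)‖ ≤ 12 / 10 * K (n + 1))
    {m n : ℕ} {k : Z3} (hb : blob K h m k) (hb' : blob K h n k) : m = n := by
  have := lev_eq h0 hK (blob_lev h0 hK hn hb) (blob_lev h0 hK hn hb')
  omega

theorem grp_blob (h0 : 1 ≤ K 0) (hK : ∀ n, 1000 * K n ≤ K (n + 1))
    (hn : ∀ n, 104 / 100 * (K (n + 1) : ℝ) ≤ ‖vec (h n)‖ ∧ ‖vec (h n)‖ ≤ 12 / 10 * K (n + 1))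
    {n : ℕ} {k : Z3} (hb : blob K h n k) : grp K h k = n := by
  have hH : ∃ m, blob K h m k := ⟨n, hb⟩
  have h1 : grp K h k ∈ {m | blob K h m k} := by
    unfold grp
    rw [if_pos hH]
    exact Nat.sInf_mem hH
  exact blob_unique h0 hK hn h1 hb

/-- a frequency is in the blob of its group, or small -/
theorem grp_cases (h0 : 1 ≤ K 0) (hK : ∀ n, 1000 * K n ≤ K (n + 1))
    (hn : ∀ n, 104 / 100 * (K (n + 1) : ℝ) ≤ ‖vec (h n)‖ ∧ ‖vec (h n)‖ ≤ 12 / 10 * K (n + 1))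
    (k : Z3) : blob K h (grp K h k) k ∨ ((¬ ∃ m, blob K h m k) ∧
      8 * ‖vec k‖ ≤ K (grp K h k + 1) ∧ (grp K h k = 0 ∨ (K (grp K h k) : ℝ) < 8 * ‖vec k‖)) := by
  by_cases hH : ∃ m, blob K h m k
  · left
    obtain ⟨m, hm⟩ := hH
    rw [grp_blob h0 hK hn hm]
    exact hm
  · right
    have hne : {m | 8 * ‖vec k‖ ≤ K (m + 1)}.Nonempty := by
      obtain ⟨m, hm⟩ := exists_nat_gt (8 * ‖vec k‖)
      refine ⟨m, hm.le.trans ?_⟩
      have := K_unb h0 hK (m + 1)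
      have h2 : m ≤ K (m + 1) := by omega
      exact_mod_cast h2
    have hg : grp K h k = sInf {m | 8 * ‖vec k‖ ≤ K (m + 1)} := by
      unfold grp
      rw [if_neg hH]
    refine ⟨hH, ?_, ?_⟩
    · have := Nat.sInf_mem hne
      rw [← hg] at this
      exact this
    · rcases Nat.eq_zero_or_pos (grp K h k) with h2 | h2
      · exact Or.inl h2
      · right
        by_contra hcon
        push Not at hcon
        have h3 : grp K h k - 1 ∈ {m | 8 * ‖vec k‖ ≤ K (m + 1)} := by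
          show 8 * ‖vec k‖ ≤ K (grp K h k - 1 + 1)
          rw [Nat.sub_add_cancel h2]
          exact hcon
        have h4 := Nat.sInf_le h3
        rw [← hg] at h4
        omega

theorem grp_bounds (h0 : 1 ≤ K 0) (hK : ∀ n, 1000 * K n ≤ K (n + 1))
    (hn : ∀ n, 104 / 100 * (K (n + 1) : ℝ) ≤ ‖vec (h n)‖ ∧ ‖vec (h n)‖ ≤ 12 / 10 * K (n + 1))
    (k : Z3) : ‖vec k‖ ≤ 13 / 10 * K (grp K h k + 1) ∧
      (grp K h k = 0 ∨ (K (grp K h k) : ℝ) < 8 * ‖vec k‖) := by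
  rcases grp_cases h0 hK hn k with h1 | ⟨-, h1, h2⟩
  · have h2 := blob_lev h0 hK hn h1
    refine ⟨h2.2, Or.inr ?_⟩
    have h3 := K_lt h0 hK (Nat.lt_succ_self (grp K h k))
    simp only [Nat.succ_eq_add_one] at h3
    have h4 : (1 : ℝ) ≤ K (grp K h k) := by exact_mod_cast K_pos h0 hK _
    linarith [h2.1]
  · refine ⟨?_, h2⟩
    have := norm_nonneg (vec k)
    linarith

theorem grp_main (h0 : 1 ≤ K 0) (hK : ∀ n, 1000 * K n ≤ K (n + 1))
    (hn : ∀ n, 104 / 100 * (K (n + 1) : ℝ) ≤ ‖vec (h n)‖ ∧ ‖vec (h n)‖ ≤ 12 / 10 * K (n + 1))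
    {k : Z3} {n : ℕ} (hk : (K n : ℝ) ≤ ‖vec k‖ ∧ ‖vec k‖ ≤ 13 / 10 * K n)
    (hne : ¬ ∃ m, blob K h m k) : grp K h k = n := by
  rcases grp_cases h0 hK hn k with h1 | ⟨-, h1, h2⟩
  · exact absurd ⟨_, h1⟩ hne
  · have hpos : ∀ n, (1 : ℝ) ≤ K n := fun n => by exact_mod_cast K_pos h0 hK n
    have h5 := hpos n
    rcases lt_trichotomy (grp K h k) n with h3 | h3 | h3
    · exfalso
      have h4 : (K (grp K h k + 1) : ℝ) ≤ K n := by exact_mod_cast K_mono hK h3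
      linarith [hk.1]
    · exact h3
    · exfalso
      rcases h2 with h2 | h2
      · omega
      · have h4 := K_lt h0 hK h3
        linarith [hk.2]

/-- the frequencies of a group -/
noncomputable def frq (K : ℕ → ℕ) (h : ℕ → Z3) (n : ℕ) : Finset Z3 :=
  box (K (n + 1) / 8) ∪ ((box (K n / 10)).image (fun k => k + h n) ∪
    (box (K n / 10)).image (fun k => k - h n))

theorem mem_box_div {N d : ℕ} (hd : 0 < d) {k : Z3} (hk : (d : ℝ) * ‖vec k‖ ≤ N) :
    k ∈ box (N / d) := by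
  rw [mem_box]
  intro i
  have h1 := abs_le_vec k i
  have h2 : (d : ℝ) * |(k i : ℝ)| ≤ N :=
    (mul_le_mul_of_nonneg_left h1 (Nat.cast_nonneg _)).trans hk
  have h3 : (d : ℤ) * |k i| ≤ N := by exact_mod_cast h2
  have h4 : (k i).natAbs ≤ N / d := by
    rw [Nat.le_div_iff_mul_le hd]
    have h5 : ((k i).natAbs : ℤ) = |k i| := Int.natCast_natAbs _
    have h6 : (((k i).natAbs * d : ℕ) : ℤ) ≤ N := by
      push_cast
      linarith
    exact_mod_cast h6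
  rw [← Int.natCast_natAbs]
  exact_mod_cast h4

theorem mem_frq (h0 : 1 ≤ K 0) (hK : ∀ n, 1000 * K n ≤ K (n + 1))
    (hn : ∀ n, 104 / 100 * (K (n + 1) : ℝ) ≤ ‖vec (h n)‖ ∧ ‖vec (h n)‖ ≤ 12 / 10 * K (n + 1))
    (k : Z3) : k ∈ frq K h (grp K h k) := by
  unfold frq
  rw [Finset.mem_union, Finset.mem_union, Finset.mem_image, Finset.mem_image]
  rcases grp_cases h0 hK hn k with h1 | ⟨-, h1, -⟩
  · right
    rcases h1 with h1 | h1
    · left
      refine ⟨k - h (grp K h k), ?_, by abel⟩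
      apply mem_box_div (by norm_num)
      push_cast
      linarith
    · right
      refine ⟨k + h (grp K h k), ?_, by abel⟩
      apply mem_box_div (by norm_num)
      push_cast
      linarith
  · left
    apply mem_box_div (by norm_num)
    push_cast
    exact h1

theorem card_frq (h0 : 2 ≤ K 0) (hK : ∀ n, 1000 * K n ≤ K (n + 1)) (n : ℕ) :
    ((frq K h n).card : ℝ) ≤ (K (n + 1) : ℝ) ^ 3 := by
  have h1 : (frq K h n).card ≤ (2 * (K (n + 1) / 8) + 1) ^ 3 +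
      ((2 * (K n / 10) + 1) ^ 3 + (2 * (K n / 10) + 1) ^ 3) := by
    unfold frq
    refine (Finset.card_union_le _ _).trans ?_
    refine Nat.add_le_add (card_box _).le ?_
    refine (Finset.card_union_le _ _).trans ?_
    exact Nat.add_le_add (Finset.card_image_le.trans (card_box _).le)
      (Finset.card_image_le.trans (card_box _).le)
  have hKn : 2 ≤ K n := by
    have := K_mono hK (Nat.zero_le n)
    omega
  have h2 := hK n
  have h3 : 2 * (K n / 10) + 1 ≤ K n := by omega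
  have h4 : 2 * (2 * (K (n + 1) / 8) + 1) ≤ K (n + 1) := by omega
  have h5 : (2 * (K n / 10) + 1) ^ 3 ≤ K n ^ 3 := Nat.pow_le_pow_left h3 3
  have h6 : (2 * (2 * (K (n + 1) / 8) + 1)) ^ 3 ≤ K (n + 1) ^ 3 := Nat.pow_le_pow_left h4 3
  have h7 : (1000 * K n) ^ 3 ≤ K (n + 1) ^ 3 := Nat.pow_le_pow_left h2 3
  have h8 : (2 * (2 * (K (n + 1) / 8) + 1)) ^ 3 = 8 * (2 * (K (n + 1) / 8) + 1) ^ 3 := by ring
  have h9 : (1000 * K n) ^ 3 = 1000000000 * K n ^ 3 := by ring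
  rw [h8] at h6
  rw [h9] at h7
  have h10 : (frq K h n).card ≤ K (n + 1) ^ 3 := by omega
  exact_mod_cast h10

end

/-- the groups of the frequencies of the packets -/
theorem grp_P {K : ℕ → ℕ} {γ : ℕ → ℝ} {β D : ℝ} {p : ℕ} {h : ℕ → Z3} {P : ℕ → Fam}
    {C : ℕ → ℝ} {B : ℕ → ℕ → ℝ} (hT : Tab2 K γ β D p h P C B) (h0 : 1 ≤ K 0)
    (hK : ∀ n, 1000 * K n ≤ K (n + 1)) {n : ℕ} {k : Z3} (hk : P n k ≠ 0) : grp K h k = n := by
  rcases hT.supp n k hk with h1 | h1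
  · apply grp_main h0 hK hT.hnorm h1
    rintro ⟨m, hm⟩
    have h2 := lev_eq h0 hK h1 (blob_lev h0 hK hT.hnorm hm)
    subst h2
    have h3 := hT.hdist m k hk h1.2
    have hKm : (1 : ℝ) ≤ K m := by exact_mod_cast K_pos h0 hK m
    rcases hm with h4 | h4
    · linarith [h3.1]
    · linarith [h3.2]
  · exact grp_blob h0 hK hT.hnorm h1

end Pool.Agent.Y421.NE
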