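import Pool.Agent.Y421.NE.Tri

/-! Completion of the packets with blob tails to an orthonormal system; kernel bounds:
helper5's S_ONB2. -/

open Set Filter Topology MeasureTheory

set_option autoImplicit false

namespace Pool.Agent.Y421.NE

open Pool.Agent.Y5 Pool.Agent.Y5.D Pool.Agent.Y5.E
open Pool.Agent.Y248.ND (vec_neg vec_sub vec_add abs_le_vec one_le_vec OT.zero bil_anti bil_eq_sum
  bil_bound H box mem_box card_box mem_box_of Em mem_Em basis inner_eq_pair K_pos K_mono K_lt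
  K_unb vec_neg_norm sum_sq_le tri_ne)

theorem near3 {K : ℕ → ℕ} {h : ℕ → Z3} (h0 : 1 ≤ K 0) (hK : ∀ n, 1000 * K n ≤ K (n + 1))
    (hn : ∀ n, 104 / 100 * (K (n + 1) : ℝ) ≤ ‖vec (h n)‖ ∧ ‖vec (h n)‖ ≤ 12 / 10 * K (n + 1))
    (x y z : Z3) (htri : ‖vec x‖ ≤ ‖vec y‖ + ‖vec z‖) :
    grp K h x ≤ max (grp K h y) (grp K h z) + 1 := by
  by_contra hcon
  push Not at hcon
  set m := max (grp K h y) (grp K h z) with hm
  have h1 := (grp_bounds h0 hK hn y).1
  have h2 := (grp_bounds h0 hK hn z).1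
  have h3 : (K (grp K h y + 1) : ℝ) ≤ K (m + 1) := by
    exact_mod_cast K_mono hK (Nat.succ_le_succ (le_max_left _ _))
  have h4 : (K (grp K h z + 1) : ℝ) ≤ K (m + 1) := by
    exact_mod_cast K_mono hK (Nat.succ_le_succ (le_max_right _ _))
  have h5 := K_lt h0 hK hcon
  have h6 : (1 : ℝ) ≤ K (m + 1) := by exact_mod_cast K_pos h0 hK _
  rcases (grp_bounds h0 hK hn x).2 with h7 | h7
  · omega
  · linarith

theorem sep_freq {K : ℕ → ℕ} {γ : ℕ → ℝ} {β D : ℝ} {p : ℕ} {h : ℕ → Z3} {P : ℕ → Fam}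
    {C : ℕ → ℝ} {B : ℕ → ℕ → ℝ} (hT : Tab2 K γ β D p h P C B) (h0 : 1 ≤ K 0)
    (hK : ∀ n, 1000 * K n ≤ K (n + 1)) {m : ℕ} {k x y : Z3} (hk : P m k ≠ 0) (hxy : x + y = k)
    (hx : grp K h x < m) (hy : grp K h y < m) : m ≤ grp K h x + 2 := by
  have hpos : ∀ n, (1 : ℝ) ≤ K n := fun n => by exact_mod_cast K_pos h0 hK n
  obtain ⟨m, rfl⟩ : ∃ n, m = n + 1 := ⟨m - 1, by omega⟩
  have bx := (grp_bounds h0 hK hT.hnorm x).1
  have bY := (grp_bounds h0 hK hT.hnorm y).1
  have mx : (K (grp K h x + 1) : ℝ) ≤ K (m + 1) := by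
    exact_mod_cast K_mono hK (show grp K h x + 1 ≤ m + 1 by omega)
  have my : (K (grp K h y + 1) : ℝ) ≤ K (m + 1) := by
    exact_mod_cast K_mono hK (show grp K h y + 1 ≤ m + 1 by omega)
  have tri : ‖vec k‖ ≤ ‖vec x‖ + ‖vec y‖ := by
    rw [← hxy, vec_add]
    exact norm_add_le _ _
  have hm1 := hpos (m + 1)
  have hm2 := hpos m
  have q1 := K_lt h0 hK (Nat.lt_succ_self (m + 1))
  have q2 := K_lt h0 hK (Nat.lt_succ_self m)
  simp only [Nat.succ_eq_add_one] at q1 q2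
  -- the frequency is in the main part
  have hmain : (K (m + 1) : ℝ) ≤ ‖vec k‖ ∧ ‖vec k‖ ≤ 13 / 10 * K (m + 1) := by
    rcases hT.supp (m + 1) k hk with h1 | h1
    · exact h1
    · exfalso
      have h2 := (blob_lev h0 hK hT.hnorm (m := m + 1) (k := k) h1).1
      linarith
  have hd := hT.hdist m k hk hmain.2
  -- the norm of the first frequency
  by_contra hcon
  push Not at hcon
  have hxs : ‖vec x‖ ≤ 13 / 10 * K m / 1000 := by
    have h1 : 1000 * (K (grp K h x + 1) : ℝ) ≤ K m := K_lt h0 hK (by omega)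
    linarith
  -- the second one is in the blob
  rcases grp_cases h0 hK hT.hnorm y with h1 | ⟨-, h1, -⟩
  · have h2 : grp K h y = m := by
      by_contra h3
      have h4 : 1000 * (K (grp K h y + 1) : ℝ) ≤ K (m + 1) := K_lt h0 hK (by omega)
      linarith [hmain.1]
    rw [h2] at h1
    rcases h1 with h1 | h1
    · have h3 : ‖vec (k - h m)‖ ≤ ‖vec x‖ + ‖vec (y - h m)‖ := by
        have : k - h m = x + (y - h m) := by rw [← hxy]; abel
        rw [this, vec_add]
        exact norm_add_le _ _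
      linarith [hd.1]
    · have h3 : ‖vec (k + h m)‖ ≤ ‖vec x‖ + ‖vec (y + h m)‖ := by
        have : k + h m = x + (y + h m) := by rw [← hxy]; abel
        rw [this, vec_add]
        exact norm_add_le _ _
      linarith [hd.2]
  · linarith [hmain.1]

theorem t_ONB2 : Pool.Agent.Y5.E.S_ONB2 := by
  intro hTAB hSEQ ν α hν hα hα'
  obtain ⟨β, D, p, K₁, hβ, hD, hK₁, hTAB⟩ := hTAB
  obtain ⟨K₀, R, lam, γ, ℓ, q1, q2, q3, q4, q5, q6, q7, q8, q9, q10, q11, q12, q13⟩ :=
    hSEQ ν α β D p K₁ hν hα hα' hβ hD hK₁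
  set K : ℕ → ℕ := fun n => K₀ * R ^ n with hKdef
  have hKc : ∀ n, (K n : ℝ) = (K₀ : ℝ) * R ^ n := fun n => by
    rw [hKdef]; push_cast; ring
  have hKs : ∀ n, K (n + 1) = R * K n := fun n => by
    rw [hKdef]; simp only; ring
  have hKsr : ∀ n, (K (n + 1) : ℝ) = R * K n := fun n => by
    rw [hKs n]; push_cast; ring
  have hR1 : (10 : ℝ) ^ 12 ≤ R := by exact_mod_cast q5
  have hR0 : (0 : ℝ) < R := by linarith
  have hK : ∀ n, 1000 * K n ≤ K (n + 1) := fun n => by
    rw [hKs n]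
    exact Nat.mul_le_mul_right _ (by omega)
  have hK0 : K 0 = K₀ := by rw [hKdef]; simp
  have h0 : 1 ≤ K 0 := by rw [hK0]; omega
  have h02 : 2 ≤ K 0 := by rw [hK0]; omega
  have hpos : ∀ n, (1 : ℝ) ≤ K n := fun n => by exact_mod_cast K_pos h0 hK n
  have hdiv : ∀ n, (K (n + 1) : ℝ) / K n = R := fun n => by
    rw [hKsr n]
    have := hpos n
    field_simp
  obtain ⟨h, P, C, B, hT⟩ := hTAB K (fun _ => γ) (by rw [hK0]; exact q1)
    (fun n => by rw [hKs n]; exact Nat.mul_le_mul_right _ q4)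
    (fun n => by rw [hKdef]; exact Dvd.dvd.mul_right q2 _)
    (fun n => ⟨q7, by rw [hdiv n]; exact q8⟩)
  have hSq := q13 C B (fun n => by have := hT.C_lo n; rwa [hdiv n] at this)
    (fun n => by have := hT.C_hi n; rwa [hdiv n] at this) hT.B_lo hT.B_hi
  -- the groups
  set G : Z3 → ℕ := grp K h with hG
  have hGb := grp_bounds h0 hK hT.hnorm
  have hbox : ∀ k, k ≠ 0 → k ∈ box (2 * K (G k + 1)) := by
    intro k _
    apply mem_box_of
    have := (hGb k).1
    have h2 := hpos (G k + 1)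
    push_cast
    linarith
  obtain ⟨J, g, E, e1, e2, e3, e4, e5, e6, e7⟩ := basis G (fun n => 2 * K (n + 1)) P hbox
    (fun k => grp_neg k) hT.ot (fun n k hk => grp_P hT h0 hK hk) hT.norm1
  have hPE : ∀ n, (E (Sum.inl n) : Z3 → E3) = P n := e1
  have hne : ∀ a k, (E a : Z3 → E3) k ≠ 0 → k ≠ 0 := by
    intro a k hk
    rintro rfl
    exact hk (OT.zero (e3 a))
  have hup : ∀ a k, (E a : Z3 → E3) k ≠ 0 → ‖vec k‖ ≤ 13 / 10 * K (gr g a + 1) := by
    intro a k hk
    have := (hGb k).1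
    rwa [← hG, e4 a k hk] at this
  have hlo : ∀ a k, (E a : Z3 → E3) k ≠ 0 → gr g a = 0 ∨ (K (gr g a) : ℝ) < 8 * ‖vec k‖ := by
    intro a k hk
    have := (hGb k).2
    rwa [← hG, e4 a k hk] at this
  have hKK : ∀ n, (K₀ : ℝ) * R ^ n = K n := fun n => (hKc n).symm
  simp only [hKK] at hSq q9 q10
  have hsq : ∀ n, √(K n : ℝ) ^ 2 = K n := fun n => Real.sq_sqrt (Nat.cast_nonneg _)
  have hsR : √(R : ℝ) ^ 2 = R := Real.sq_sqrt (Nat.cast_nonneg _)
  have hsR1 : (10 : ℝ) ^ 6 ≤ √(R : ℝ) := by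
    apply Real.le_sqrt_of_sq_le
    norm_num at hR1 ⊢
    exact hR1
  have hsKs : ∀ n, √(K (n + 1) : ℝ) = √(R : ℝ) * √(K n : ℝ) := fun n => by
    rw [hKsr n, Real.sqrt_mul (Nat.cast_nonneg _)]
  have hsK1 : ∀ n, 1 ≤ √(K n : ℝ) := fun n => Real.one_le_sqrt.2 (hpos n)
  have hexp : 0 < Real.exp (lam / 1000) := Real.exp_pos _
  refine ⟨J, g, lam, R, 1 + 100 * (R : ℝ) ^ 3 / β, fun n => 13 / 10 * K (n + 1),
    fun n => β * (K n ^ 2 * √(K n)), C, ℓ, fun n => D * (K n * √(K n)),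
    fun n => K (n + 1) * √(K (n + 1)), B, fun a => (E a : Z3 → E3), ?_, hSq, ?_⟩
  · refine
      { ot := e3
        fsupp := fun a k hk => ⟨one_le_vec (hne a k hk), hup a k hk⟩
        F_cmp := ?_
        F_L := ?_
        L_F := ?_
        disj := fun a b k ha hb => by rw [← e4 a k ha, ← e4 b k hb]
        orth := ?_
        compl := e7
        low := ?_
        lowo := ?_
        G0 := fun n => by positivity
        cnt := ?_
        N0 := ?_
        N_grow := ?_
        N_up := ?_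
        G_le := ?_
        l1N := ?_
        pt := ?_ }
    · refine ⟨13 / 10 * R * (8 * K 0), by have := hpos 0; positivity, fun a k hk => ?_⟩
      show 13 / 10 * (K (gr g a + 1) : ℝ) ≤ _
      rw [hKsr]
      have hk1 := one_le_vec (hne a k hk)
      have hk0 := hpos 0
      have key : (K (gr g a) : ℝ) ≤ 8 * K 0 * ‖vec k‖ := by
        rcases hlo a k hk with h1 | h1
        · rw [h1]
          nlinarith
        · nlinarith
      calc 13 / 10 * (R * (K (gr g a) : ℝ)) = 13 / 10 * R * K (gr g a) := by ring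
        _ ≤ 13 / 10 * R * (8 * K 0 * ‖vec k‖) := by gcongr
        _ = _ := by ring
    · refine ⟨13 / 10 * R / β, by positivity, fun n => ?_⟩
      show 13 / 10 * (K (n + 1) : ℝ) ≤ 13 / 10 * R / β * (β * (K n ^ 2 * √(K n)))
      rw [hKsr]
      have h1 := hpos n
      have h2 := hsK1 n
      have h3 : (K n : ℝ) ≤ K n ^ 2 * √(K n) := by nlinarith
      have h4 : 13 / 10 * (R : ℝ) / β * (β * (K n ^ 2 * √(K n))) =
          13 / 10 * R * (K n ^ 2 * √(K n)) := by field_simp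
      rw [h4, ← mul_assoc]
      gcongr
    · refine ⟨β, hβ, fun n => ?_⟩
      show β * ((K n : ℝ) ^ 2 * √(K n)) ≤ β * (13 / 10 * (K (n + 1) : ℝ)) ^ (5 / 2 : ℝ)
      have h1 := hpos n
      have h2 : (K n : ℝ) ^ 2 * √(K n) = (K n : ℝ) ^ (5 / 2 : ℝ) := by
        rw [Real.sqrt_eq_rpow, ← Real.rpow_natCast, ← Real.rpow_add (by linarith)]
        norm_num
      rw [h2]
      have h3 : (K n : ℝ) ≤ 13 / 10 * (K (n + 1) : ℝ) := by
        have : (K n : ℝ) ≤ K (n + 1) := by exact_mod_cast K_mono hK (Nat.le_succ n)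
        linarith
      have h4 := Real.rpow_le_rpow (by linarith) h3 (show (0 : ℝ) ≤ 5 / 2 by norm_num)
      exact mul_le_mul_of_nonneg_left h4 hβ.le
    · intro a b
      refine ⟨?_, fun hab => ?_⟩
      · rintro rfl
        rw [← inner_eq_pair, real_inner_self_eq_norm_sq, e2.1 a, one_pow]
      · rw [← inner_eq_pair]
        exact e2.2 hab
    · intro n
      show 2 * (ν * ∑' k, (2 * Real.pi * ‖vec k‖) ^ (2 * α) *
        ‖(E (Sum.inl n) : Z3 → E3) k‖ ^ 2) ≤ ℓ n
      rw [hPE n]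
      have h1 : ∀ k : Z3, (2 * Real.pi * ‖vec k‖) ^ (2 * α) * ‖P n k‖ ^ 2 =
          (2 * Real.pi) ^ (2 * α) * (‖vec k‖ ^ (2 * α) * ‖P n k‖ ^ 2) := by
        intro k
        rw [Real.mul_rpow Real.two_pi_pos.le (norm_nonneg _), mul_assoc]
      simp only [h1, tsum_mul_left]
      refine le_trans ?_ (q9 n)
      have := hT.hs n (2 * α) (by linarith) (by linarith)
      have h3 : 0 ≤ (2 * Real.pi) ^ (2 * α) := Real.rpow_nonneg Real.two_pi_pos.le _
      gcongr
    · intro n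
      show 2 * (ν * (2 * Real.pi * (13 / 10 * (K (n + 1) : ℝ))) ^ (2 * α)) ≤ _
      exact q10 n
    · intro n
      show ({k | ∃ a, gr g a = n ∧ (E a : Z3 → E3) k ≠ 0}.ncard : ℝ) ≤
        ((K (n + 1) : ℝ) * √(K (n + 1))) ^ 2
      have h1 : {k | ∃ a, gr g a = n ∧ (E a : Z3 → E3) k ≠ 0} ⊆ (frq K h n : Set Z3) := by
        rintro k ⟨a, ha, hk⟩
        have h2 := mem_frq h0 hK hT.hnorm k
        rw [← hG, e4 a k hk, ha] at h2
        exact h2
      have h2 := ncard_le_ncard h1 (Finset.finite_toSet _)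
      rw [ncard_coe_finset] at h2
      have h3 := card_frq (h := h) h02 hK n
      have h4 : ((K (n + 1) : ℝ) * √(K (n + 1))) ^ 2 = (K (n + 1) : ℝ) ^ 3 := by
        rw [mul_pow, hsq]; ring
      rw [h4]
      exact (Nat.cast_le.2 h2).trans h3
    · show 1 ≤ D * ((K 0 : ℝ) * √(K 0))
      rw [hK0]
      exact q11
    · intro n
      show 10 ^ 9 * (D * ((K n : ℝ) * √(K n))) ≤ D * ((K (n + 1) : ℝ) * √(K (n + 1)))
      rw [hsKs, hKsr]
      have h1 : (10 : ℝ) ^ 9 ≤ R * √R := by nlinarith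
      have h2 : 0 ≤ D * ((K n : ℝ) * √(K n)) := by positivity
      calc 10 ^ 9 * (D * ((K n : ℝ) * √(K n))) ≤ (R * √R) * (D * ((K n : ℝ) * √(K n))) := by
            gcongr
        _ = _ := by ring
    · intro n
      show D * ((K (n + 1) : ℝ) * √(K (n + 1))) ≤ lam * (D * ((K n : ℝ) * √(K n)))
      rw [hsKs, hKsr, q6]
      have h2 : 0 ≤ D * ((K n : ℝ) * √(K n)) := by positivity
      calc D * (R * (K n : ℝ) * (√R * √(K n))) = (R * √R) * (D * ((K n : ℝ) * √(K n))) := by ring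
        _ ≤ (R ^ 2 * √R) * (D * ((K n : ℝ) * √(K n))) := by
            gcongr
            nlinarith
    · intro n
      show (K (n + 1) : ℝ) * √(K (n + 1)) ≤ Real.exp (lam / 1000) * (D * ((K n : ℝ) * √(K n)))
      rw [hsKs, hKsr]
      have h2 : 0 ≤ (K n : ℝ) * √(K n) := by positivity
      calc R * (K n : ℝ) * (√R * √(K n)) = (R * √R) * ((K n : ℝ) * √(K n)) := by ring
        _ ≤ (Real.exp (lam / 1000) * D) * ((K n : ℝ) * √(K n)) := by gcongr
        _ = _ := by ring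
    · intro n
      show ∑' k, ‖(E (Sum.inl n) : Z3 → E3) k‖ ≤ _
      rw [hPE n]
      exact hT.l1 n
    · intro n
      obtain ⟨y, hy⟩ := hT.pt n
      refine ⟨y, ?_⟩
      show _ ≤ ‖∑' k : Z3, Real.sin (2 * Real.pi * inner ℝ (vec k) y) • (E (Sum.inl n) : Z3 → E3) k‖
      rw [hPE n]
      exact hy
  · have hanti : ∀ j a b : Ix J, bil (E a : Z3 → E3) (E b : Z3 → E3) (E j : Z3 → E3) =
        -bil (E a : Z3 → E3) (E j : Z3 → E3) (E b : Z3 → E3) := fun j a b => bil_anti _ _ _ (e3 a)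
    refine
      { fin := e5
        card := ?_
        anti := hanti
        near := ?_
        sep := ?_
        tri := ?_
        tab := ?_ }
    · refine ⟨375 * R ^ 3 / β ^ 2, fun m => ?_⟩
      have h1 := e6 m
      have h2 : ((({j | g j = m}.ncard : ℕ)) : ℝ) ≤ ((((2 * (2 * K (m + 1)) + 1) ^ 3 * 3 : ℕ)) : ℝ) := by
        exact_mod_cast h1
      refine h2.trans ?_
      push_cast
      have h3 := hpos (m + 1)
      have h4 : (2 * (2 * (K (m + 1) : ℝ)) + 1) ^ 3 ≤ (5 * (K (m + 1) : ℝ)) ^ 3 :=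
        pow_le_pow_left₀ (by linarith) (by linarith) 3
      have h5 : 375 * (R : ℝ) ^ 3 / β ^ 2 * (β * ((K m : ℝ) ^ 2 * √(K m))) ^ 2 =
          375 * (R ^ 3 * (K m : ℝ) ^ 5) := by
        have : (β * ((K m : ℝ) ^ 2 * √(K m))) ^ 2 = β ^ 2 * (K m : ℝ) ^ 5 := by
          rw [mul_pow, mul_pow, hsq]; ring
        rw [this]
        field_simp
      show _ ≤ 375 * (R : ℝ) ^ 3 / β ^ 2 * (β * ((K m : ℝ) ^ 2 * √(K m))) ^ 2
      rw [h5]
      have h6 : (5 * (K (m + 1) : ℝ)) ^ 3 = 125 * (R ^ 3 * (K m : ℝ) ^ 3) := by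
        rw [hKsr]; ring
      have h7 : (K m : ℝ) ^ 3 ≤ (K m : ℝ) ^ 5 := pow_le_pow_right₀ (hpos m) (by norm_num)
      have h8 : (R : ℝ) ^ 3 * (K m : ℝ) ^ 3 ≤ R ^ 3 * (K m : ℝ) ^ 5 := by gcongr
      linarith
    · intro j a b hc
      obtain ⟨p', k, h1, h2, h3⟩ := tri_ne a b j hc
      have t1 : ‖vec k‖ ≤ ‖vec p'‖ + ‖vec (k - p')‖ := by
        rw [vec_sub]
        have := norm_add_le (vec p') (vec k - vec p')
        rwa [add_sub_cancel] at this
      have t2 : ‖vec p'‖ ≤ ‖vec k‖ + ‖vec (k - p')‖ := by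
        rw [vec_sub]
        have := norm_sub_le (vec k) (vec k - vec p')
        rwa [sub_sub_cancel] at this
      have t3 : ‖vec (k - p')‖ ≤ ‖vec k‖ + ‖vec p'‖ := by
        rw [vec_sub]
        exact norm_sub_le _ _
      have r1 := near3 h0 hK hT.hnorm k p' (k - p') t1
      have r2 := near3 h0 hK hT.hnorm p' k (k - p') t2
      have r3 := near3 h0 hK hT.hnorm (k - p') k p' t3
      rw [← hG, e4 j k h3, e4 a p' h1, e4 b (k - p') h2] at r1 r2 r3
      exact ⟨r1, r2, r3⟩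
    · intro m a b hc ha hb
      obtain ⟨p', k, h1, h2, h3⟩ := tri_ne a b (Sum.inl m) hc
      rw [hPE m] at h3
      have s1 := sep_freq hT h0 hK (x := p') (y := k - p') h3 (by abel)
        (by rw [← hG, e4 a p' h1]; exact ha) (by rw [← hG, e4 b (k - p') h2]; exact hb)
      have s2 := sep_freq hT h0 hK (x := k - p') (y := p') h3 (by abel)
        (by rw [← hG, e4 b (k - p') h2]; exact hb) (by rw [← hG, e4 a p' h1]; exact ha)
      rw [← hG, e4 a p' h1] at s1
      rw [← hG, e4 b (k - p') h2] at s2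
      exact ⟨s1, s2⟩
    · intro m p' q α' β' γ' hα1 hβ1 hγ1
      set S : ℕ → Finset (Ix J) := fun n => (fin_gr e5 n).toFinset with hS
      have hSm : ∀ n a, a ∈ S n ↔ gr g a = n := fun n a => by
        rw [hS]; simp
      have sE : ∀ a k, (E a : Z3 → E3) k ≠ 0 → grp K h k = gr g a := e4
      rw [tl_eq h0 hK hT.hnorm sE m p' q (S m) (S p') (S q) (hSm m) (hSm p') (hSm q) α' β' γ'
        hα1 hβ1 hγ1]
      obtain ⟨Z, z1, z2, z3, z4⟩ := comb e2 e3 sE m (S m) (hSm m) α' hα1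
      obtain ⟨V, v1, v2, v3, v4⟩ := comb e2 e3 sE p' (S p') (hSm p') β' hβ1
      obtain ⟨W, w1, w2, w3, w4⟩ := comb e2 e3 sE q (S q) (hSm q) γ' hγ1
      rw [← z1, ← v1, ← w1, ← z2, ← v2, ← w2]
      refine (tri_min h02 hK hT.hnorm V W Z v3 v4 w4 z4).trans ?_
      have hpi := Real.pi_lt_four
      have hpi0 := Real.pi_pos
      set s := min m q with hs
      have hβR : (1 + 100 * (R : ℝ) ^ 3 / β) * β = β + 100 * R ^ 3 := by field_simp
      have hsRR : √(R : ℝ) ≤ R := by nlinarith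
      -- the constants
      have hom : 2 * Real.pi * (13 / 10 * K (s + 1)) * (K (min p' s + 1) * √(K (min p' s + 1))) ≤
          om R (1 + 100 * (R : ℝ) ^ 3 / β) (fun n => β * (K n ^ 2 * √(K n))) m p' q := by
        rw [hsKs, hKsr, hKsr]
        unfold om
        rw [← hs]
        by_cases hps : p' ≤ s
        · rw [if_pos hps, min_eq_left hps]
          have hKs' : (K s : ℝ) = R ^ (s - p') * K p' := by
            rw [hKc, hKc]
            have : (R : ℝ) ^ s = R ^ (s - p') * R ^ p' := by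
              rw [← pow_add]; congr 1; omega
            rw [this]; ring
          rw [hKs']
          have e1 : 2 * Real.pi * (13 / 10 * (R * (R ^ (s - p') * (K p' : ℝ)))) *
              (R * K p' * (√R * √(K p'))) =
              (2 * Real.pi * (13 / 10) * R ^ 2 * √R) *
                (R ^ (s - p') * ((K p' : ℝ) ^ 2 * √(K p'))) := by ring
          have e2 : (1 + 100 * (R : ℝ) ^ 3 / β) * (β * ((K p' : ℝ) ^ 2 * √(K p'))) *
              R ^ (s - p') = ((1 + 100 * (R : ℝ) ^ 3 / β) * β) *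
                (R ^ (s - p') * ((K p' : ℝ) ^ 2 * √(K p'))) := by ring
          rw [e1, e2, hβR]
          have e3 : 2 * Real.pi * (13 / 10) * (R : ℝ) ^ 2 * √R ≤ β + 100 * R ^ 3 := by
            have e4 : 2 * Real.pi * (13 / 10) ≤ 100 := by linarith
            calc 2 * Real.pi * (13 / 10) * (R : ℝ) ^ 2 * √R ≤ 100 * (R : ℝ) ^ 2 * R := by gcongr
              _ ≤ _ := by nlinarith
          gcongr
        · rw [if_neg hps, min_eq_right (by omega)]
          have e1 : 2 * Real.pi * (13 / 10 * (R * (K s : ℝ))) *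
              (R * K s * (√R * √(K s))) =
              (2 * Real.pi * (13 / 10) * R ^ 2 * √R) * ((K s : ℝ) ^ 2 * √(K s)) := by ring
          have e2 : (1 + 100 * (R : ℝ) ^ 3 / β) * (β * ((K s : ℝ) ^ 2 * √(K s))) =
              ((1 + 100 * (R : ℝ) ^ 3 / β) * β) * ((K s : ℝ) ^ 2 * √(K s)) := by ring
          rw [e1, e2, hβR]
          have e3 : 2 * Real.pi * (13 / 10) * (R : ℝ) ^ 2 * √R ≤ β + 100 * R ^ 3 := by
            have e4 : 2 * Real.pi * (13 / 10) ≤ 100 := by linarith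
            calc 2 * Real.pi * (13 / 10) * (R : ℝ) ^ 2 * √R ≤ 100 * (R : ℝ) ^ 2 * R := by gcongr
              _ ≤ _ := by nlinarith
          gcongr
      have hn1 := norm_nonneg V
      have hn2 := norm_nonneg W
      have hn3 := norm_nonneg Z
      calc 2 * Real.pi * (13 / 10 * (K (s + 1) : ℝ)) * (K (min p' s + 1) * √(K (min p' s + 1))) *
            ‖V‖ * ‖W‖ * ‖Z‖
          = (2 * Real.pi * (13 / 10 * (K (s + 1) : ℝ)) *
            (K (min p' s + 1) * √(K (min p' s + 1)))) * (‖Z‖ * ‖V‖ * ‖W‖) := by ring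
        _ ≤ _ := by
            rw [mul_assoc (om _ _ _ _ _ _), mul_assoc (om _ _ _ _ _ _)]
            exact mul_le_mul_of_nonneg_right hom (by positivity)
    · intro i j n
      show bil (E (Sum.inl i) : Z3 → E3) (E (Sum.inl j) : Z3 → E3) (E (Sum.inl n) : Z3 → E3) = _
      rw [hPE i, hPE j, hPE n]
      exact hT.tab i j n

end Pool.Agent.Y421.NE
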