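import Pool.Agent.Y421.NE.Grp
import Pool.Agent.Y248.ND.ONB

/-! Trilinear bounds for groups of frequencies (for helper5's S_ONB2). -/

open Set Filter Topology MeasureTheory

set_option autoImplicit false

namespace Pool.Agent.Y421.NE

open Pool.Agent.Y5 Pool.Agent.Y5.D Pool.Agent.Y5.E
open Pool.Agent.Y248.ND (vec_neg vec_sub vec_add abs_le_vec one_le_vec OT.zero bil_anti bil_eq_sum
  bil_bound H box mem_box card_box mem_box_of Em mem_Em basis inner_eq_pair K_pos K_mono K_lt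
  K_unb vec_neg_norm sum_sq_le)

theorem bil_bound1 (V W Z : Fam) (T U : Finset Z3) (hT : ∀ k, V k ≠ 0 → k ∈ T)
    (hU : ∀ k, Z k ≠ 0 → k ∈ U) (b c F A : ℝ) (hb : 0 ≤ b) (hc : 0 ≤ c)
    (hW : ∀ s : Finset Z3, ∑ k ∈ s, ‖W k‖ ^ 2 ≤ b ^ 2)
    (hZ : ∀ s : Finset Z3, ∑ k ∈ s, ‖Z k‖ ^ 2 ≤ c ^ 2)
    (hF : ∀ k, Z k ≠ 0 → ‖vec k‖ ≤ F) (hA : ∑ k ∈ T, ‖V k‖ ≤ A) (hF0 : 0 ≤ F) :
    |bil V W Z| ≤ 2 * Real.pi * F * A * b * c := by
  rw [bil_eq_sum V W Z T U hT hU, abs_mul, abs_neg, abs_of_pos Real.two_pi_pos, Finset.sum_comm]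
  have h1 : |∑ p ∈ T, ∑ k ∈ U, inner ℝ (V p) (vec k) * inner ℝ (W (k - p)) (Z k)| ≤
      F * A * b * c := by
    refine (Finset.abs_sum_le_sum_abs _ _).trans ?_
    have h2 : ∀ p ∈ T, |∑ k ∈ U, inner ℝ (V p) (vec k) * inner ℝ (W (k - p)) (Z k)| ≤
        F * ‖V p‖ * (b * c) := by
      intro p hp
      have h3 : ∀ k ∈ U, |inner ℝ (V p) (vec k) * inner ℝ (W (k - p)) (Z k)| ≤
          F * ‖V p‖ * (‖W (k - p)‖ * ‖Z k‖) := by
        intro k _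
        by_cases hz : Z k = 0
        · rw [hz]; simp
        rw [abs_mul]
        have e1 := abs_real_inner_le_norm (V p) (vec k)
        have e2 := abs_real_inner_le_norm (W (k - p)) (Z k)
        have e3 := hF k hz
        calc |inner ℝ (V p) (vec k)| * |inner ℝ (W (k - p)) (Z k)|
            ≤ (‖V p‖ * ‖vec k‖) * (‖W (k - p)‖ * ‖Z k‖) :=
              mul_le_mul e1 e2 (abs_nonneg _) (by positivity)
          _ ≤ (‖V p‖ * F) * (‖W (k - p)‖ * ‖Z k‖) := by gcongr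
          _ = _ := by ring
      refine (Finset.abs_sum_le_sum_abs _ _).trans ((Finset.sum_le_sum h3).trans ?_)
      rw [← Finset.mul_sum]
      have h4 : ∑ k ∈ U, ‖W (k - p)‖ * ‖Z k‖ ≤ b * c := by
        have h5 := Finset.sum_mul_sq_le_sq_mul_sq U (fun k => ‖W (k - p)‖) (fun k => ‖Z k‖)
        have h6 : ∑ k ∈ U, ‖W (k - p)‖ ^ 2 ≤ b ^ 2 := by
          have h7 := hW (U.image (fun k => k - p))
          rw [Finset.sum_image (fun x _ y _ hxy => by simpa using hxy)] at h7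
          exact h7
        have h8 : (∑ k ∈ U, ‖W (k - p)‖ * ‖Z k‖) ^ 2 ≤ (b * c) ^ 2 := by
          rw [mul_pow]
          refine h5.trans ?_
          exact mul_le_mul h6 (hZ U) (Finset.sum_nonneg fun _ _ => sq_nonneg _) (sq_nonneg _)
        exact abs_le_of_sq_le_sq' h8 (mul_nonneg hb hc) |>.2
      exact mul_le_mul_of_nonneg_left h4 (mul_nonneg hF0 (norm_nonneg _))
    refine (Finset.sum_le_sum h2).trans ?_
    rw [← Finset.sum_mul, ← Finset.mul_sum]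
    have : F * ∑ k ∈ T, ‖V k‖ ≤ F * A := mul_le_mul_of_nonneg_left hA hF0
    calc F * (∑ k ∈ T, ‖V k‖) * (b * c) ≤ F * A * (b * c) :=
          mul_le_mul_of_nonneg_right this (mul_nonneg hb hc)
      _ = _ := by ring
  calc 2 * Real.pi * _ ≤ 2 * Real.pi * (F * A * b * c) :=
        mul_le_mul_of_nonneg_left h1 Real.two_pi_pos.le
    _ = _ := by ring

theorem lin1 {I : Type} (s : Finset I) (x : I → ℝ) (f : I → Fam) (W Z : Fam) (T U : Finset Z3)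
    (hT : ∀ a ∈ s, ∀ k, f a k ≠ 0 → k ∈ T) (hU : ∀ k, Z k ≠ 0 → k ∈ U) :
    bil (fun k => ∑ a ∈ s, x a • f a k) W Z = ∑ a ∈ s, x a * bil (f a) W Z := by
  have h0 : ∀ k, (∑ a ∈ s, x a • f a k) ≠ 0 → k ∈ T := by
    intro k hk
    obtain ⟨a, ha, hne⟩ := Finset.exists_ne_zero_of_sum_ne_zero hk
    exact hT a ha k (fun h => hne (by rw [h, smul_zero]))
  rw [bil_eq_sum _ _ _ T U h0 hU]
  have h1 : ∀ a ∈ s, x a * bil (f a) W Z = -(2 * Real.pi) * ∑ k ∈ U, ∑ p ∈ T,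
      x a * (inner ℝ (f a p) (vec k) * inner ℝ (W (k - p)) (Z k)) := by
    intro a ha
    rw [bil_eq_sum (f a) W Z T U (hT a ha) hU]
    simp_rw [← Finset.mul_sum]
    ring
  rw [Finset.sum_congr rfl h1, ← Finset.mul_sum]
  congr 1
  rw [Finset.sum_comm (s := s)]
  refine Finset.sum_congr rfl fun k _ => ?_
  rw [Finset.sum_comm (s := s)]
  refine Finset.sum_congr rfl fun p _ => ?_
  rw [sum_inner, Finset.sum_mul]
  refine Finset.sum_congr rfl fun a _ => ?_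
  rw [real_inner_smul_left]
  ring

theorem lin2 {I : Type} (s : Finset I) (x : I → ℝ) (f : I → Fam) (V Z : Fam) (T U : Finset Z3)
    (hT : ∀ k, V k ≠ 0 → k ∈ T) (hU : ∀ k, Z k ≠ 0 → k ∈ U) :
    bil V (fun k => ∑ a ∈ s, x a • f a k) Z = ∑ a ∈ s, x a * bil V (f a) Z := by
  rw [bil_eq_sum _ _ _ T U hT hU]
  have h1 : ∀ a ∈ s, x a * bil V (f a) Z = -(2 * Real.pi) * ∑ k ∈ U, ∑ p ∈ T,
      x a * (inner ℝ (V p) (vec k) * inner ℝ (f a (k - p)) (Z k)) := by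
    intro a ha
    rw [bil_eq_sum V (f a) Z T U hT hU]
    simp_rw [← Finset.mul_sum]
    ring
  rw [Finset.sum_congr rfl h1, ← Finset.mul_sum]
  congr 1
  rw [Finset.sum_comm (s := s)]
  refine Finset.sum_congr rfl fun k _ => ?_
  rw [Finset.sum_comm (s := s)]
  refine Finset.sum_congr rfl fun p _ => ?_
  rw [sum_inner, Finset.mul_sum]
  refine Finset.sum_congr rfl fun a _ => ?_
  rw [real_inner_smul_left]
  ring

theorem lin3 {I : Type} (s : Finset I) (x : I → ℝ) (f : I → Fam) (V W : Fam) (T U : Finset Z3)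
    (hT : ∀ k, V k ≠ 0 → k ∈ T) (hU : ∀ a ∈ s, ∀ k, f a k ≠ 0 → k ∈ U) :
    bil V W (fun k => ∑ a ∈ s, x a • f a k) = ∑ a ∈ s, x a * bil V W (f a) := by
  have h0 : ∀ k, (∑ a ∈ s, x a • f a k) ≠ 0 → k ∈ U := by
    intro k hk
    obtain ⟨a, ha, hne⟩ := Finset.exists_ne_zero_of_sum_ne_zero hk
    exact hU a ha k (fun h => hne (by rw [h, smul_zero]))
  rw [bil_eq_sum _ _ _ T U hT h0]
  have h1 : ∀ a ∈ s, x a * bil V W (f a) = -(2 * Real.pi) * ∑ k ∈ U, ∑ p ∈ T,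
      x a * (inner ℝ (V p) (vec k) * inner ℝ (W (k - p)) (f a k)) := by
    intro a ha
    rw [bil_eq_sum V W (f a) T U hT (hU a ha)]
    simp_rw [← Finset.mul_sum]
    ring
  rw [Finset.sum_congr rfl h1, ← Finset.mul_sum]
  congr 1
  rw [Finset.sum_comm (s := s)]
  refine Finset.sum_congr rfl fun k _ => ?_
  rw [Finset.sum_comm (s := s)]
  refine Finset.sum_congr rfl fun p _ => ?_
  rw [inner_sum, Finset.mul_sum]
  refine Finset.sum_congr rfl fun a _ => ?_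
  rw [real_inner_smul_right]
  ring

section

variable {K : ℕ → ℕ} {h : ℕ → Z3}

/-- `l¹` norms of families supported in one group -/
theorem l1_grp (h0 : 2 ≤ K 0) (hK : ∀ n, 1000 * K n ≤ K (n + 1)) (V : H) (n : ℕ) :
    ∑ k ∈ frq K h n, ‖(V : Z3 → E3) k‖ ≤ (K (n + 1) * √(K (n + 1))) * ‖V‖ := by
  have h1 := Finset.sum_mul_sq_le_sq_mul_sq (frq K h n) (fun _ => (1 : ℝ))
    (fun k => ‖(V : Z3 → E3) k‖)
  have h2 := sum_sq_le V (frq K h n)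
  have h3 := card_frq (h := h) h0 hK n
  simp only [one_mul, one_pow, Finset.sum_const, nsmul_eq_mul, mul_one] at h1
  have h4 : (∑ k ∈ frq K h n, ‖(V : Z3 → E3) k‖) ^ 2 ≤ ((K (n + 1) * √(K (n + 1))) * ‖V‖) ^ 2 := by
    refine h1.trans ?_
    have h5 : ((K (n + 1) * √(K (n + 1))) * ‖V‖) ^ 2 = (K (n + 1) : ℝ) ^ 3 * ‖V‖ ^ 2 := by
      rw [mul_pow, mul_pow, Real.sq_sqrt (Nat.cast_nonneg _)]
      ring
    rw [h5]
    exact mul_le_mul h3 h2 (Finset.sum_nonneg fun _ _ => sq_nonneg _) (by positivity)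
  exact abs_le_of_sq_le_sq' h4 (by positivity) |>.2

theorem supp_frq (h0 : 1 ≤ K 0) (hK : ∀ n, 1000 * K n ≤ K (n + 1))
    (hn : ∀ n, 104 / 100 * (K (n + 1) : ℝ) ≤ ‖vec (h n)‖ ∧ ‖vec (h n)‖ ≤ 12 / 10 * K (n + 1))
    {V : Fam} {n : ℕ} (hV : ∀ k, V k ≠ 0 → grp K h k = n) (k : Z3) (hk : V k ≠ 0) :
    k ∈ frq K h n := by
  have := mem_frq h0 hK hn k
  rwa [hV k hk] at this

theorem supp_norm (h0 : 1 ≤ K 0) (hK : ∀ n, 1000 * K n ≤ K (n + 1))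
    (hn : ∀ n, 104 / 100 * (K (n + 1) : ℝ) ≤ ‖vec (h n)‖ ∧ ‖vec (h n)‖ ≤ 12 / 10 * K (n + 1))
    {V : Fam} {n : ℕ} (hV : ∀ k, V k ≠ 0 → grp K h k = n) (k : Z3) (hk : V k ≠ 0) :
    ‖vec k‖ ≤ 13 / 10 * K (n + 1) := by
  have := (grp_bounds h0 hK hn k).1
  rwa [hV k hk] at this

theorem tri_a (h0 : 2 ≤ K 0) (hK : ∀ n, 1000 * K n ≤ K (n + 1))
    (hn : ∀ n, 104 / 100 * (K (n + 1) : ℝ) ≤ ‖vec (h n)‖ ∧ ‖vec (h n)‖ ≤ 12 / 10 * K (n + 1))
    {m p : ℕ} (V W Z : H) (hV : ∀ k, (V : Z3 → E3) k ≠ 0 → grp K h k = p)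
    (hZ : ∀ k, (Z : Z3 → E3) k ≠ 0 → grp K h k = m) :
    |bil (V : Z3 → E3) (W : Z3 → E3) (Z : Z3 → E3)| ≤
      2 * Real.pi * (13 / 10 * K (m + 1)) * (K (p + 1) * √(K (p + 1))) * ‖V‖ * ‖W‖ * ‖Z‖ := by
  have h1 := bil_bound1 V W Z (frq K h p) (frq K h m) (supp_frq (by omega) hK hn hV)
    (supp_frq (by omega) hK hn hZ) ‖W‖ ‖Z‖ (13 / 10 * K (m + 1))
    ((K (p + 1) * √(K (p + 1))) * ‖V‖) (norm_nonneg _) (norm_nonneg _) (sum_sq_le W) (sum_sq_le Z)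
    (supp_norm (by omega) hK hn hZ) (l1_grp h0 hK V p) (by positivity)
  refine h1.trans (le_of_eq ?_)
  ring

theorem tri_b (h0 : 2 ≤ K 0) (hK : ∀ n, 1000 * K n ≤ K (n + 1))
    (hn : ∀ n, 104 / 100 * (K (n + 1) : ℝ) ≤ ‖vec (h n)‖ ∧ ‖vec (h n)‖ ≤ 12 / 10 * K (n + 1))
    {m p : ℕ} (V W Z : H) (hV : ∀ k, (V : Z3 → E3) k ≠ 0 → grp K h k = p)
    (hZ : ∀ k, (Z : Z3 → E3) k ≠ 0 → grp K h k = m) :
    |bil (V : Z3 → E3) (W : Z3 → E3) (Z : Z3 → E3)| ≤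
      2 * Real.pi * (13 / 10 * K (m + 1)) * (K (m + 1) * √(K (m + 1))) * ‖V‖ * ‖W‖ * ‖Z‖ := by
  have h1 := bil_bound V W Z (frq K h p) (frq K h m) (supp_frq (by omega) hK hn hV)
    (supp_frq (by omega) hK hn hZ) ‖V‖ ‖W‖ (13 / 10 * K (m + 1))
    ((K (m + 1) * √(K (m + 1))) * ‖Z‖) (norm_nonneg _) (norm_nonneg _) (sum_sq_le V) (sum_sq_le W)
    (supp_norm (by omega) hK hn hZ) (l1_grp h0 hK Z m) (by positivity)
  refine h1.trans (le_of_eq ?_)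
  ring

/-- the bound for the interaction of three groups -/
theorem tri_min (h0 : 2 ≤ K 0) (hK : ∀ n, 1000 * K n ≤ K (n + 1))
    (hn : ∀ n, 104 / 100 * (K (n + 1) : ℝ) ≤ ‖vec (h n)‖ ∧ ‖vec (h n)‖ ≤ 12 / 10 * K (n + 1))
    {m p q : ℕ} (V W Z : H) (oV : OT (V : Z3 → E3))
    (hV : ∀ k, (V : Z3 → E3) k ≠ 0 → grp K h k = p)
    (hW : ∀ k, (W : Z3 → E3) k ≠ 0 → grp K h k = q)
    (hZ : ∀ k, (Z : Z3 → E3) k ≠ 0 → grp K h k = m) :
    |bil (V : Z3 → E3) (W : Z3 → E3) (Z : Z3 → E3)| ≤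
      2 * Real.pi * (13 / 10 * K (min m q + 1)) *
        (K (min p (min m q) + 1) * √(K (min p (min m q) + 1))) * ‖V‖ * ‖W‖ * ‖Z‖ := by
  rcases le_total m q with hmq | hmq
  · rw [min_eq_left hmq]
    rcases le_total p m with hpm | hpm
    · rw [min_eq_left hpm]
      exact tri_a h0 hK hn V W Z hV hZ
    · rw [min_eq_right hpm]
      exact tri_b h0 hK hn V W Z hV hZ
  · rw [min_eq_right hmq, bil_anti _ _ _ oV, abs_neg]
    rcases le_total p q with hpm | hpm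
    · rw [min_eq_left hpm]
      refine (tri_a h0 hK hn V Z W hV hW).trans (le_of_eq ?_)
      ring
    · rw [min_eq_right hpm]
      refine (tri_b h0 hK hn V Z W hV hW).trans (le_of_eq ?_)
      ring

end

section tl

variable {J : Type} {g : J → ℕ} {K : ℕ → ℕ} {h : ℕ → Z3} {E : Ix J → H}

theorem fin_gr (hfin : ∀ m, {j | g j = m}.Finite) (m : ℕ) : {a : Ix J | gr g a = m}.Finite := by
  have h1 : {a : Ix J | gr g a = m} ⊆ {Sum.inl m} ∪ Sum.inr '' {j | g j = m} := by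
    rintro (n | j) ha
    · left
      have : n = m := ha
      rw [this]
      exact mem_singleton _
    · right
      exact ⟨j, ha, rfl⟩
  exact ((finite_singleton _).union ((hfin m).image _)).subset h1

theorem comb (hE : Orthonormal ℝ E) (oE : ∀ a, OT (E a : Z3 → E3))
    (sE : ∀ a k, (E a : Z3 → E3) k ≠ 0 → grp K h k = gr g a) (m : ℕ) (S : Finset (Ix J))
    (hS : ∀ a, a ∈ S ↔ gr g a = m) (x : Ix J → ℝ) (hx : ∀ i, gr g i ≠ m → x i = 0) :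
    ∃ V : H, ((V : Z3 → E3) = fun k => ∑ a ∈ S, x a • (E a : Z3 → E3) k) ∧
      ‖V‖ = √(∑' i, x i ^ 2) ∧ OT (V : Z3 → E3) ∧
      ∀ k, (V : Z3 → E3) k ≠ 0 → grp K h k = m := by
  refine ⟨∑ a ∈ S, x a • E a, ?_⟩
  have hVc : (((∑ a ∈ S, x a • E a : H)) : Z3 → E3) =
      fun k => ∑ a ∈ S, x a • (E a : Z3 → E3) k := by
    funext k
    rw [lp.coeFn_sum, Finset.sum_apply]
    rfl
  refine ⟨hVc, ?_, ?_, ?_⟩
  · have h1 : ∑' i, x i ^ 2 = ∑ i ∈ S, x i ^ 2 := by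
      apply tsum_eq_sum
      intro i hi
      rw [hx i (fun h => hi ((hS i).2 h))]
      ring
    have h5 : ‖∑ a ∈ S, x a • E a‖ * ‖∑ a ∈ S, x a • E a‖ = ∑ a ∈ S, x a ^ 2 := by
      rw [← real_inner_self_eq_norm_mul_norm, hE.inner_sum]
      refine Finset.sum_congr rfl fun a _ => ?_
      simp [sq]
    rw [h1, ← h5, Real.sqrt_mul_self (norm_nonneg _)]
  · rw [hVc]
    refine ⟨fun k => ?_, fun k => ?_⟩
    · rw [← Finset.sum_neg_distrib]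
      refine Finset.sum_congr rfl fun a _ => ?_
      rw [(oE a).odd k, smul_neg]
    · rw [inner_sum]
      refine Finset.sum_eq_zero fun a _ => ?_
      rw [inner_smul_right, (oE a).tan k, mul_zero]
  · intro k hk
    rw [hVc] at hk
    obtain ⟨a, ha, hne⟩ := Finset.exists_ne_zero_of_sum_ne_zero hk
    rw [← (hS a).1 ha]
    exact sE a k (fun h => hne (by rw [h, smul_zero]))

theorem tl_eq (h0 : 1 ≤ K 0) (hK : ∀ n, 1000 * K n ≤ K (n + 1))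
    (hn : ∀ n, 104 / 100 * (K (n + 1) : ℝ) ≤ ‖vec (h n)‖ ∧ ‖vec (h n)‖ ≤ 12 / 10 * K (n + 1))
    (sE : ∀ a k, (E a : Z3 → E3) k ≠ 0 → grp K h k = gr g a) (m p q : ℕ)
    (S S' S'' : Finset (Ix J)) (hS : ∀ a, a ∈ S ↔ gr g a = m) (hS' : ∀ a, a ∈ S' ↔ gr g a = p)
    (hS'' : ∀ a, a ∈ S'' ↔ gr g a = q) (α β γ : Ix J → ℝ)
    (hα : ∀ i, gr g i ≠ m → α i = 0) (hβ : ∀ i, gr g i ≠ p → β i = 0)
    (hγ : ∀ i, gr g i ≠ q → γ i = 0) :
    tl (fun j a b => bil (E a : Z3 → E3) (E b : Z3 → E3) (E j : Z3 → E3)) α β γ =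
      bil (fun k => ∑ a ∈ S', β a • (E a : Z3 → E3) k) (fun k => ∑ a ∈ S'', γ a • (E a : Z3 → E3) k)
        (fun k => ∑ a ∈ S, α a • (E a : Z3 → E3) k) := by
  have hT : ∀ a ∈ S', ∀ k, (E a : Z3 → E3) k ≠ 0 → k ∈ frq K h p := by
    intro a ha k hk
    have h1 := mem_frq h0 hK hn k
    rwa [sE a k hk, (hS' a).1 ha] at h1
  have hU : ∀ a ∈ S, ∀ k, (E a : Z3 → E3) k ≠ 0 → k ∈ frq K h m := by
    intro a ha k hk
    have h1 := mem_frq h0 hK hn k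
    rwa [sE a k hk, (hS a).1 ha] at h1
  have hU' : ∀ k, (∑ a ∈ S, α a • (E a : Z3 → E3) k) ≠ 0 → k ∈ frq K h m := by
    intro k hk
    obtain ⟨a, ha, hne⟩ := Finset.exists_ne_zero_of_sum_ne_zero hk
    exact hU a ha k (fun h => hne (by rw [h, smul_zero]))
  rw [lin1 S' β (fun a => (E a : Z3 → E3)) _ _ (frq K h p) (frq K h m) hT hU']
  have h2 : ∀ a ∈ S', β a * bil (E a : Z3 → E3) (fun k => ∑ a ∈ S'', γ a • (E a : Z3 → E3) k)
        (fun k => ∑ a ∈ S, α a • (E a : Z3 → E3) k) =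
      ∑ b ∈ S'', ∑ j ∈ S, bil (E a : Z3 → E3) (E b : Z3 → E3) (E j : Z3 → E3) * α j * β a * γ b := by
    intro a ha
    rw [lin2 S'' γ (fun a => (E a : Z3 → E3)) _ _ (frq K h p) (frq K h m) (hT a ha) hU',
      Finset.mul_sum]
    refine Finset.sum_congr rfl fun b _ => ?_
    rw [lin3 S α (fun a => (E a : Z3 → E3)) _ _ (frq K h p) (frq K h m) (hT a ha) hU,
      Finset.mul_sum, Finset.mul_sum]
    refine Finset.sum_congr rfl fun j _ => ?_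
    ring
  rw [Finset.sum_congr rfl h2]
  unfold tl
  rw [tsum_eq_sum (s := S ×ˢ (S' ×ˢ S'')), Finset.sum_product_right, Finset.sum_product]
  rintro ⟨j, a, b⟩ hne
  simp only [Finset.mem_product, hS, hS', hS''] at hne
  simp only
  by_cases h1 : gr g j = m
  · by_cases h2 : gr g a = p
    · by_cases h3 : gr g b = q
      · exact absurd ⟨h1, h2, h3⟩ hne
      · rw [hγ b h3, mul_zero]
    · rw [hβ a h2]; ring
  · rw [hα j h1]; ring

end tl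

end Pool.Agent.Y421.NE
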